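import Mathlib
import Pool.Agent.W231.M.Main

set_option autoImplicit false

/-!
# Vojta's main conjecture on the plane: the degree of the exceptional set

`X = ℙ²` over any number field `K`, `S` a finite set of places containing the archimedean ones such
that the group of `S`-units is infinite, `D` any divisor which contains a conic and two lines,
namely `X Y = Z²`, `Z = 0` and a line through the point `(1 : 1 : 1)`.
-/

namespace Pool.Agent.Results.MP_17a322_nt.ExceptionalDegreeConic

open NumberField IsDedekindDomain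

variable {K : Type} [Field K] [NumberField K]

/-- The local height of the curve `F = 0` of degree `d` at the point with homogeneous coordinates
`x`, for the absolute value `a` of `K`. -/
noncomputable def weil (a : K → ℝ) (d : ℕ) (F : MvPolynomial (Fin 3) K) (x : Fin 3 → K) : ℝ :=
  Real.log ((⨆ j, a (x j)) ^ d / a (MvPolynomial.eval x F))

/-- The proximity function `m_{S,D}(x)`, with absolute normalisation, of the divisor
`D = ∑ {F i = 0}`, where `F i` has degree `d i`, for the archimedean places of `K` and the primes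
in `S`. -/
noncomputable def proximity {q : ℕ} (S : Finset (HeightOneSpectrum (𝓞 K)))
    (F : Fin q → MvPolynomial (Fin 3) K) (d : Fin q → ℕ) (x : Fin 3 → K) : ℝ :=
  ((∑ w : InfinitePlace K, w.mult * ∑ i, weil w (d i) (F i) x) +
    ∑ v ∈ S, ∑ i, weil (FinitePlace.mk v) (d i) (F i) x) / Module.finrank ℚ K

/-- The absolute logarithmic height. -/
noncomputable def height (x : Fin 3 → K) : ℝ := Height.logHeight x / Module.finrank ℚ K

/-- Let `K` be a number field, `S` a finite set of primes of `K` and `u` an element of infinite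
order of `K` which is a unit outside `S`. Let `D = ∑ {F i = 0}` be a divisor of `ℙ²` over `K` three
of whose components are the conic `X Y = Z²`, the line `Z = 0` and the line
`α X + β Y = (α + β) Z`. If Vojta's inequality `m_{S,D}(x) + h_K(x) ≤ ε h(x) + C`, `h_K = -3 h`,
holds for all `x ∈ ℙ²(K)` off `D` and off the zero set of a nonzero form `G` of degree `δ` (with
coefficients in some extension of `K`), then `2 ^ τ(k) ≤ 2 (δ + deg D)` for every `k ≥ 1` with
`ε k < 1`, where `τ(k)` is the number of divisors of `k`. -/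
theorem result (K : Type) [Field K] [NumberField K] (S : Finset (HeightOneSpectrum (𝓞 K)))
    (u : K) (hu : u ≠ 0) (huS : ∀ v, v ∉ S → FinitePlace.mk v u = 1)
    (hord : ∀ n : ℕ, 0 < n → u ^ n ≠ 1) (α β : K) (q : ℕ)
    (F : Fin q → MvPolynomial (Fin 3) K) (d : Fin q → ℕ) (hF : ∀ i, (F i).IsHomogeneous (d i))
    (hF0 : ∀ i, F i ≠ 0) (i₁ i₂ i₃ : Fin q) (h₁₂ : i₁ ≠ i₂) (h₁₃ : i₁ ≠ i₃) (h₂₃ : i₂ ≠ i₃)
    (hF₁ : F i₁ = MvPolynomial.X 0 * MvPolynomial.X 1 - MvPolynomial.X 2 ^ 2)
    (hF₂ : F i₂ = MvPolynomial.X 2)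
    (hF₃ : F i₃ = MvPolynomial.C α * MvPolynomial.X 0 + MvPolynomial.C β * MvPolynomial.X 1 -
      MvPolynomial.C (α + β) * MvPolynomial.X 2)
    (Ω : Type) [Field Ω] [Algebra K Ω] (G : MvPolynomial (Fin 3) Ω) (δ : ℕ) (hG : G ≠ 0)
    (hGδ : G.IsHomogeneous δ) (ε C : ℝ)
    (hV : ∀ x : Fin 3 → K, x ≠ 0 → (∀ i, MvPolynomial.eval x (F i) ≠ 0) →
      MvPolynomial.eval (fun j => algebraMap K Ω (x j)) G ≠ 0 →
      proximity S F d x + -3 * height x ≤ ε * height x + C)
    (k : ℕ) (hk : 1 ≤ k) (hεk : ε * k < 1) :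
    2 ^ k.divisors.card ≤ 2 * (δ + ∑ i, d i) := by
  classical
  by_contra hlt
  push Not at hlt
  set N : ℝ := (Module.finrank ℚ K : ℝ) with hN
  have hN0 : 0 < N := by
    rw [hN]
    exact_mod_cast Module.finrank_pos
  obtain ⟨x, hx, hFx, hGx, h⟩ := Pool.Agent.W231.M.main3 S hu huS hord α β F d hF hF0 i₁ i₂ i₃
    h₁₂ h₁₃ h₂₃ hF₁ hF₂ hF₃ G hG hGδ (N * C) hk hεk hlt
  have h1 := hV x hx hFx hGx
  have hweil : ∀ (f : AbsoluteValue K ℝ) (i : Fin q), weil f (d i) (F i) x =
      d i * Real.log (⨆ j, f (x j)) - Real.log (f (MvPolynomial.eval x (F i))) := by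
    intro f i
    obtain ⟨j, hj⟩ := Function.ne_iff.1 hx
    have p2 : 0 < ⨆ j, f (x j) := (f.pos_iff.2 hj).trans_le
      (le_ciSup (f := fun j => f (x j)) (Set.finite_range _).bddAbove j)
    rw [weil, Real.log_div (pow_pos p2 _).ne' (f.pos_iff.2 (hFx i)).ne', Real.log_pow]
  have hprox : proximity S F d x = (∑ i, (d i * Pool.Agent.W231.V.LamSup S x -
      Pool.Agent.W231.V.Lam S (MvPolynomial.eval x (F i)))) / N := by
    unfold proximity
    rw [← hN]
    congr 1
    have e1 : ∀ w : InfinitePlace K, (w.mult : ℝ) * ∑ i, weil w (d i) (F i) x =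
        ∑ i, (d i * (w.mult * Real.log (⨆ j, w (x j))) -
          w.mult * Real.log (w (MvPolynomial.eval x (F i)))) := by
      intro w
      rw [Finset.mul_sum]
      refine Finset.sum_congr rfl fun i _ => ?_
      have h' : weil w (d i) (F i) x = weil w.1 (d i) (F i) x := rfl
      rw [h', hweil w.1 i]
      have h'' : ∀ y : K, w.1 y = w y := fun _ => rfl
      simp only [h'']
      ring
    have e2 : ∀ v : HeightOneSpectrum (𝓞 K), ∑ i, weil (FinitePlace.mk v) (d i) (F i) x =
        ∑ i, (d i * Real.log (⨆ j, Pool.Agent.W231.V.fv v (x j)) -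
          Real.log (Pool.Agent.W231.V.fv v (MvPolynomial.eval x (F i)))) :=
      fun v => Finset.sum_congr rfl fun i _ => hweil (Pool.Agent.W231.V.fv v) i
    rw [Finset.sum_congr rfl fun w _ => e1 w, Finset.sum_congr rfl fun v _ => e2 v,
      Finset.sum_comm, Finset.sum_comm (s := S), ← Finset.sum_add_distrib]
    refine Finset.sum_congr rfl fun i _ => ?_
    unfold Pool.Agent.W231.V.LamSup Pool.Agent.W231.V.Lam
    simp only [Finset.sum_sub_distrib, ← Finset.mul_sum]
    ring
  rw [hprox] at h1
  unfold height at h1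
  rw [← hN] at h1
  set M : ℝ := ∑ i, (d i * Pool.Agent.W231.V.LamSup S x -
      Pool.Agent.W231.V.Lam S (MvPolynomial.eval x (F i))) with hM
  have h3 := mul_le_mul_of_nonneg_left h1 hN0.le
  have e : ∀ y : ℝ, N * (y / N) = y := fun y => by field_simp
  have e1 := e M
  have e2 := e (Height.logHeight x)
  have e3 : N * (M / N + -3 * (Height.logHeight x / N)) = M - 3 * Height.logHeight x := by
    linear_combination e1 - 3 * e2
  have e4 : N * (ε * (Height.logHeight x / N) + C) = ε * Height.logHeight x + N * C := by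
    linear_combination ε * e2
  rw [e3, e4] at h3
  linarith

end Pool.Agent.Results.MP_17a322_nt.ExceptionalDegreeConic
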