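import Pool.Agent.W180.OP.Fin1

set_option autoImplicit false

/-!
# Vojta's main conjecture on the plane: one place, lines and conics

`X = ℙ²` over a number field `K`, `D = ∑ {F i = 0}` a normal crossings divisor over `K`.
-/

namespace Pool.Agent.Results.MP_17a322_nt.OnePlaceConics

open NumberField IsDedekindDomain

/-- The divisor `∑ {F i = 0}` has (strict) normal crossings: for every extension `L` of `K` and
every `x ≠ 0` in `L³` the gradients at `x` of the `F i` that vanish at `x` are linearly
independent over `L`. -/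
def NormalCrossings {K : Type} [Field K] {q : ℕ} (F : Fin q → MvPolynomial (Fin 3) K) : Prop :=
  ∀ (L : Type) [Field L] [Algebra K L] (x : Fin 3 → L), x ≠ 0 →
    LinearIndependent L (fun (j : {j : Fin q // MvPolynomial.aeval x (F j) = 0}) (i : Fin 3) =>
      MvPolynomial.aeval x (MvPolynomial.pderiv i (F j)))

/-- The pencil of the conics `F = 0`, `G = 0` contains a product of two linear forms over `K`
(so the four crossing points of the two conics lie on two lines defined over `K`). -/
def LinearPencil {K : Type} [Field K] (F G : MvPolynomial (Fin 3) K) : Prop :=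
  ∃ (a b : K) (M M' : MvPolynomial (Fin 3) K), M.IsHomogeneous 1 ∧ M'.IsHomogeneous 1 ∧
    M * M' ≠ 0 ∧ MvPolynomial.C a * F + MvPolynomial.C b * G = M * M'

/-- The local height of the curve `F = 0` of degree `d` at the point with homogeneous coordinates
`x`, for the absolute value `a` of `L`. -/
noncomputable def weil {K L : Type} [Field K] [Field L] [Algebra K L] (a : L → ℝ) (d : ℕ)
    (F : MvPolynomial (Fin 3) K) (x : Fin 3 → L) : ℝ :=
  Real.log ((⨆ j, a (x j)) ^ d / a (MvPolynomial.aeval x F))

/-- The curves `F = 0` and `G = 0` of degrees `d` and `e` have no common point over the completion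
of `L` at `a`: since the plane is compact there this means that `F` and `G` are not both small. -/
def Apart {K L : Type} [Field K] [Field L] [Algebra K L] (a : L → ℝ) (d e : ℕ)
    (F G : MvPolynomial (Fin 3) K) : Prop :=
  ∃ c : ℝ, 0 < c ∧ ∀ x : Fin 3 → L, x ≠ 0 →
    c ≤ max (a (MvPolynomial.aeval x F) / (⨆ j, a (x j)) ^ d)
      (a (MvPolynomial.aeval x G) / (⨆ j, a (x j)) ^ e)

/-- The proximity function `m_{S,D}(x)`, with absolute normalisation, of `D = ∑ {F i = 0}`, where
`F i` has degree `d i`, for the set `S` of the archimedean places in `S₁` and the primes in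
`S₂`. -/
noncomputable def proximity {K L : Type} [Field K] [Field L] [NumberField L] [Algebra K L] {q : ℕ}
    (S₁ : Finset (InfinitePlace L)) (S₂ : Finset (HeightOneSpectrum (𝓞 L)))
    (F : Fin q → MvPolynomial (Fin 3) K) (d : Fin q → ℕ) (x : Fin 3 → L) : ℝ :=
  ((∑ w ∈ S₁, w.mult * ∑ i, weil w (d i) (F i) x) +
    ∑ v ∈ S₂, ∑ i, weil (FinitePlace.mk v) (d i) (F i) x) / Module.finrank ℚ L

/-- The absolute logarithmic height. -/
noncomputable def height {L : Type} [Field L] [NumberField L] (x : Fin 3 → L) : ℝ :=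
  Height.logHeight x / Module.finrank ℚ L

/-- Let `K` be a number field and `D = ∑ {F i = 0}`, `deg F i = d i ≤ 3`, a normal crossings
divisor of the plane over `K`. There is a finite union `Z` of lines over `K` with the following
property. Let `L ⊇ K` be any number field and let `S` consist of one place of `L`, archimedean or
not. Suppose that, whenever `i ≠ j` and `d i + d j ≥ 4`, the curves `F i = 0` and `F j = 0` either
have no common point over the completion of `L` or are conics whose pencil contains a product of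
two linear forms over `K`. Then Vojta's inequality `m_{S,D}(x) + h_K(x) ≤ C`, `h_K = -3 h`, holds
for all `L`-rational points `x` off `D` and `Z`. -/
theorem result (K : Type) [Field K] [NumberField K] (q : ℕ)
    (F : Fin q → MvPolynomial (Fin 3) K) (d : Fin q → ℕ) (hd : ∀ i, d i ≤ 3)
    (hF : ∀ i, (F i).IsHomogeneous (d i)) (hnc : NormalCrossings F) :
    ∃ Z : Finset (MvPolynomial (Fin 3) K), (∀ M ∈ Z, M.IsHomogeneous 1 ∧ M ≠ 0) ∧
      ∀ (L : Type) [Field L] [NumberField L] [Algebra K L] (S₁ : Finset (InfinitePlace L))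
        (S₂ : Finset (HeightOneSpectrum (𝓞 L))), S₁.card + S₂.card = 1 →
        (∀ i j, i ≠ j → 4 ≤ d i + d j →
          ((∀ w ∈ S₁, Apart w (d i) (d j) (F i) (F j)) ∧
            ∀ v ∈ S₂, Apart (FinitePlace.mk v) (d i) (d j) (F i) (F j)) ∨
          (d i = 2 ∧ d j = 2 ∧ LinearPencil (F i) (F j))) →
        ∃ C : ℝ, ∀ x : Fin 3 → L, x ≠ 0 → (∀ i, MvPolynomial.aeval x (F i) ≠ 0) →
          (∀ M ∈ Z, MvPolynomial.aeval x M ≠ 0) →
          proximity S₁ S₂ F d x + -3 * height x ≤ C := by
  classical
  have hweil : ∀ (L : Type) [Field L] [Algebra K L] (f : AbsoluteValue L ℝ) (e : ℕ)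
      (G : MvPolynomial (Fin 3) K) (x : Fin 3 → L), weil f e G x =
      Pool.Agent.W180.OP.lam f e (Pool.Agent.W180.OP.bc L G) x := by
    intro L _ _ f e G x
    unfold weil Pool.Agent.W180.OP.lam
    rw [Pool.Agent.W180.OP.eval_bc]
    rfl
  have hprox : ∀ (L : Type) [Field L] [NumberField L] [Algebra K L] (S₁ : Finset (InfinitePlace L))
      (S₂ : Finset (HeightOneSpectrum (𝓞 L))) (x : Fin 3 → L),
      proximity S₁ S₂ F d x = (∑ p ∈ (S₁.disjSum S₂ : Finset (Pool.Agent.W180.OP.Pl L)),
        Pool.Agent.W180.OP.wt p * ∑ i, Pool.Agent.W180.OP.lam (Pool.Agent.W180.OP.av p) (d i)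
          (Pool.Agent.W180.OP.bc L (F i)) x) / Module.finrank ℚ L := by
    intro L _ _ _ S₁ S₂ x
    unfold proximity
    rw [Finset.sum_disjSum]
    congr 2
    · refine Finset.sum_congr rfl fun w _ => ?_
      congr 1
      exact Finset.sum_congr rfl fun i _ => hweil L w.1 (d i) (F i) x
    · refine Finset.sum_congr rfl fun v _ => ?_
      show _ = (1 : ℝ) * _
      rw [one_mul]
      exact Finset.sum_congr rfl fun i _ => hweil L (Pool.Agent.W180.OP.fv v) (d i) (F i) x
  obtain ⟨Z, hZ1, hZ2⟩ := Pool.Agent.W180.OP.one_final F d hF hnc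
  refine ⟨Z, hZ1, ?_⟩
  intro L _ _ _ S₁ S₂ hcard hpair
  have hN : (0 : ℝ) < Module.finrank ℚ L := by exact_mod_cast Module.finrank_pos
  obtain ⟨p, hp⟩ : ∃ p : Pool.Agent.W180.OP.Pl L, S₁.disjSum S₂ = {p} := by
    rw [← Finset.card_eq_one, Finset.card_disjSum]
    exact hcard
  have hap : ∀ (f : AbsoluteValue L ℝ) (i j : Fin q), Apart f (d i) (d j) (F i) (F j) →
      Pool.Agent.W180.OP.Apart f (d i) (d j) (Pool.Agent.W180.OP.bc L (F i))
        (Pool.Agent.W180.OP.bc L (F j)) := by
    intro f i j ⟨c, hc, h⟩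
    refine ⟨c, hc, fun x hx => ?_⟩
    rw [Pool.Agent.W180.OP.eval_bc, Pool.Agent.W180.OP.eval_bc]
    exact h x hx
  obtain ⟨B, hB⟩ := hZ2 L p hd (by
    intro i j hij h4
    rcases hpair i j hij h4 with ⟨h1, h2⟩ | h
    · left
      cases p with
      | inl w =>
        have hw : w ∈ S₁ := by
          have : (Sum.inl w : Pool.Agent.W180.OP.Pl L) ∈ S₁.disjSum S₂ := by
            rw [hp]; exact Finset.mem_singleton_self _
          simpa using this
        exact hap w.1 i j (h1 w hw)
      | inr v =>
        have hv : v ∈ S₂ := by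
          have : (Sum.inr v : Pool.Agent.W180.OP.Pl L) ∈ S₁.disjSum S₂ := by
            rw [hp]; exact Finset.mem_singleton_self _
          simpa using this
        exact hap (Pool.Agent.W180.OP.fv v) i j (h2 v hv)
    · exact Or.inr h)
  refine ⟨B / Module.finrank ℚ L, fun x hx hFx hMx => ?_⟩
  have h := hB x hx hFx hMx
  rw [hprox, hp, Finset.sum_singleton, height]
  have h2 := div_le_div_of_nonneg_right h hN.le
  have e : (3 * Height.logHeight x + B) / (Module.finrank ℚ L : ℝ) =
      3 * (Height.logHeight x / Module.finrank ℚ L) + B / Module.finrank ℚ L := by ring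
  rw [e] at h2
  linarith

end Pool.Agent.Results.MP_17a322_nt.OnePlaceConics
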