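import Pool.Agent.W180.RR.Tot

set_option autoImplicit false

/-!
# MP_17a322_nt: the proximity function of rational points for few places

Let `X ⊆ ℙ^{n-1}` be the projective scheme over `ℚ` given by forms `G k`, and let
`D i = X ∩ {F i = 0}`, `i < q`, be sections by forms of degree `d i`.  Suppose that any `N` of the
`D i` meet in finitely many (algebraic) points, with contact order at most `μ`, and that no
`N + 1` of them have a common point.  Let `S` be a finite set of primes.  For a primitive integral
vector `x` representing a rational point of `X` outside the `D i`, the proximity function of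
`D = ∑ D i` at `S ∪ {∞}` is `∑ i, (d i * log H(x) - log |F i (x)|')`, where `|m|'` is the part of
`m` prime to `S`.  We show that it is at most `(Δ + μ (2 + ε)) log H(x) + C`, where `Δ` is the
largest sum of `(N - 1) (|S| + 1)` of the degrees.
-/

namespace Pool.Agent.Results.MP_17a322_nt.RothBound

open MvPolynomial NumberField
open Pool.Agent.W180.RR

theorem result {n q N μ : ℕ} {κ : Type} [Fintype κ]
    -- the projective scheme
    (G : κ → MvPolynomial (Fin n) ℤ) (g : κ → ℕ) (hG : ∀ k, (G k).IsHomogeneous (g k))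
    -- the sections
    (F : Fin q → MvPolynomial (Fin n) ℤ) (d : Fin q → ℕ) (hF : ∀ i, (F i).IsHomogeneous (d i))
    (hN : 1 ≤ N)
    -- any `N` of the `D i` meet in `K`-rational points only
    (K : Type) [Field K] [NumberField K]
    (hrat : ∀ J : Finset (Fin q), J.card = N → ∀ (L : Type) [Field L] [Algebra K L]
      (x : Fin n → L), x ≠ 0 → (∀ j ∈ J, aeval x (F j) = 0) → (∀ k, aeval x (G k) = 0) →
        ∃ (y : Fin n → K) (c : L), x = c • fun b => algebraMap K L (y b))
    -- the contact order is at most `μ`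
    (hcon : ∀ J : Finset (Fin q), J.card = N → ∀ a,
      ∀ Q ∈ (Ideal.span (Set.range (Sum.elim (fun j : J => bK K (F j.1))
        (fun k => bK K (G k))))).radical ^ μ,
      ∃ M : ℕ, X a ^ M * Q ∈ Ideal.span (Set.range (Sum.elim (fun j : J => bK K (F j.1))
        (fun k => bK K (G k)))))
    -- no `N + 1` of the `D i` have a common point
    (hemp : ∀ J : Finset (Fin q), J.card = N + 1 → ∀ (L : Type) [Field L] [Algebra K L]
      (x : Fin n → L), x ≠ 0 → (∀ j ∈ J, aeval x (F j) = 0) → ¬ (∀ k, aeval x (G k) = 0))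
    -- the places
    (S : Finset ℕ) (hS : ∀ p ∈ S, p.Prime) (Δ : ℕ)
    (hΔ : ∀ I : Finset (Fin q), I.card ≤ (N - 1) * (S.card + 1) → ∑ i ∈ I, d i ≤ Δ)
    (ε : ℝ) (hε : 0 < ε) :
    ∃ C : ℝ, ∀ x : Fin n → ℤ, Prim x → (∀ k, eval x (G k) = 0) → (∀ i, eval x (F i) ≠ 0) →
      ∑ i, (d i * Real.log (hgt x) - Real.log (sfree S (eval x (F i)))) ≤
        (Δ + μ * (2 + ε)) * Real.log (hgt x) + C := by
  obtain ⟨C, -, hC⟩ := total G g hG F d hF hN K hrat hcon hemp S hS Δ hΔ ε hε
  exact ⟨C, hC⟩

end Pool.Agent.Results.MP_17a322_nt.RothBound
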